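import Pool.Agent.W629.SU.Seq

/-!
Families of graphs: labellings of disjoint unions.
-/

set_option autoImplicit false

namespace Pool.Agent.W629.SU

open H43R3.SumG

/-- the disjoint union of the graphs `G i` together with `r` isolated vertices is a sum graph -/
def IsLabF {ι : Type} {V : ι → Type} (G : ∀ i, SimpleGraph (V i)) (r : ℕ) : Prop :=
  ∃ f : (Σ i, V i) ⊕ Fin r → ℕ, Function.Injective f ∧ (∀ x, 0 < f x) ∧
    ∀ x y, x ≠ y →
      ((∃ i u v, x = Sum.inl ⟨i, u⟩ ∧ y = Sum.inl ⟨i, v⟩ ∧ (G i).Adj u v) ↔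
        ∃ z, f x + f y = f z)

theorem card_le_of_lab {ι : Type} [Fintype ι] [LinearOrder ι] {K r : ℕ} (f : ι → ℕ)
    (hf : StrictMono f) (hK : Fintype.card ι ≤ K)
    (h : IsLabF (fun i => GG (tt K (f i))) r) : Fintype.card ι ≤ r := by
  classical
  obtain ⟨F, Finj, Fpos, hF⟩ := h
  have hsep := tt_sep K f hf
  have h10 : ∀ i, 10 ≤ tt K (f i) := fun i => by have := tt_big K (f i); omega
  set g : ι → ℕ → ℚ := fun i s =>
    if h : inS (tt K (f i)) s then (F (Sum.inl ⟨i, mkv (h10 i) h⟩) : ℚ) else 0 with hgdef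
  have hg : ∀ i s (h : inS (tt K (f i)) s), g i s = (F (Sum.inl ⟨i, mkv (h10 i) h⟩) : ℚ) := by
    intro i s h
    simp only [hgdef]
    rw [dif_pos h]
  have mk : ∀ i {s s' : ℕ} (h : inS (tt K (f i)) s) (h' : inS (tt K (f i)) s'),
      mkv (h10 i) h = mkv (h10 i) h' → s = s' := by
    intro i s s' h h' heq
    exact congrArg (fun a => a.1.1) heq
  have sumL : ∀ x y, ((F x : ℚ) + F y ∈ Set.range (fun x => (F x : ℚ))) ↔
      ∃ z, F x + F y = F z := by
    intro x y
    constructor
    · rintro ⟨z, hz⟩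
      refine ⟨z, ?_⟩
      have : (F z : ℚ) = F x + F y := hz
      exact_mod_cast this.symm
    · rintro ⟨z, hz⟩
      refine ⟨z, ?_⟩
      show (F z : ℚ) = F x + F y
      rw [← hz]; push_cast; rfl
  have castinj : ∀ x y, (F x : ℚ) = F y → x = y := fun x y h => Finj (by exact_mod_cast h)
  have D : Data (fun i => tt K (f i)) r g (fun j => (F (Sum.inr j) : ℚ))
      (Set.range (fun x => (F x : ℚ))) :=
    { hL := by
        intro w
        constructor
        · rintro ⟨x, rfl⟩
          rcases x with ⟨i, ⟨⟨s, hs⟩, hs'⟩⟩ | j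
          · left; exact ⟨i, s, hs', (hg i s hs').symm⟩
          · right; exact ⟨j, rfl⟩
        · rintro (⟨i, s, hs, rfl⟩ | ⟨j, rfl⟩)
          · exact ⟨_, (hg i s hs).symm⟩
          · exact ⟨_, rfl⟩
      pos := by
        intro i s hs
        rw [hg i s hs]; exact_mod_cast Fpos _
      inj := by
        intro i s s' hs hs' heq
        rw [hg i s hs, hg i s' hs'] at heq
        have h1 := castinj _ _ heq
        have h2 := Sum.inl.inj h1
        exact mk i hs hs' (eq_of_heq (Sigma.mk.inj h2).2)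
      dis := by
        intro i l hil s s' hs hs' heq
        rw [hg i s hs, hg l s' hs'] at heq
        have h1 := castinj _ _ heq
        have h2 := Sum.inl.inj h1
        exact hil (Sigma.mk.inj h2).1
      adj := by
        intro i s s' hs hs' hne
        rw [hg i s hs, hg i s' hs', sumL]
        have hne' : (Sum.inl ⟨i, mkv (h10 i) hs⟩ : (Σ i, VV (tt K (f i))) ⊕ Fin r) ≠
            Sum.inl ⟨i, mkv (h10 i) hs'⟩ := by
          intro h
          exact hne (mk i hs hs' (eq_of_heq (Sigma.mk.inj (Sum.inl.inj h)).2))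
        rw [← hF _ _ hne']
        constructor
        · rintro ⟨i', u, v, h1, h2, h3⟩
          have h4 := Sum.inl.inj h1
          have h5 := Sum.inl.inj h2
          obtain ⟨rfl, h6⟩ := Sigma.mk.inj h4
          have h7 := (Sigma.mk.inj h5).2
          have h8 := eq_of_heq h6
          have h9 := eq_of_heq h7
          subst h8; subst h9
          exact h3.2
        · intro h
          refine ⟨i, _, _, rfl, rfl, ?_, h⟩
          intro h1
          exact hne (mk i hs hs' h1)
      cross := by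
        intro i l hil s s' hs hs'
        rw [hg i s hs, hg l s' hs', sumL]
        have hne' : (Sum.inl ⟨i, mkv (h10 i) hs⟩ : (Σ i, VV (tt K (f i))) ⊕ Fin r) ≠
            Sum.inl ⟨l, mkv (h10 l) hs'⟩ := by
          intro h
          exact hil (Sigma.mk.inj (Sum.inl.inj h)).1
        rw [← hF _ _ hne']
        rintro ⟨i', u, v, h1, h2, h3⟩
        have h4 := (Sigma.mk.inj (Sum.inl.inj h1)).1
        have h5 := (Sigma.mk.inj (Sum.inl.inj h2)).1
        exact hil (h4.trans h5.symm)
      dead := by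
        intro j i s hs
        rw [hg i s hs, sumL]
        have hne' : (Sum.inr j : (Σ i, VV (tt K (f i))) ⊕ Fin r) ≠
            Sum.inl ⟨i, mkv (h10 i) hs⟩ := by
          intro h
          exact absurd h (by simp)
        rw [← hF _ _ hne']
        rintro ⟨i', u, v, h1, h2, h3⟩
        exact absurd h1 (by simp) }
  exact D.card_le hsep hK

/-- `k` graphs of sum number at most one need at most `k` extra labels together -/
theorem lab_of_lab_one {ι : Type} [Fintype ι] {V : ι → Type} [∀ i, Finite (V i)]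
    {G : ∀ i, SimpleGraph (V i)} (h : ∀ i, IsLab (G i) 1) : IsLabF G (Fintype.card ι) := by
  classical
  choose F Finj Fpos hF using h
  let e : Fin (Fintype.card ι) ≃ ι := (Fintype.equivFin ι).symm
  -- a common bound
  obtain ⟨N, hN⟩ : ∃ N : ℕ, ∀ i x, F i x ≤ N := by
    have h1 : ∀ i, ∃ n, ∀ x, F i x ≤ n := by
      intro i
      obtain ⟨n, hn⟩ := (Set.finite_range (F i)).bddAbove
      exact ⟨n, fun x => hn ⟨x, rfl⟩⟩
    choose n hn using h1
    obtain ⟨m, hm⟩ := (Set.finite_range n).bddAbove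
    exact ⟨m, fun i x => (hn i x).trans (hm ⟨i, rfl⟩)⟩
  let p : ι → ℕ := fun i => Nat.nth Nat.Prime (N + (Fintype.equivFin ι i : ℕ))
  have pprime : ∀ i, (p i).Prime := fun i => Nat.prime_nth_prime _
  have pbig : ∀ i, N < p i := by
    intro i
    have := Nat.add_two_le_nth_prime (N + (Fintype.equivFin ι i : ℕ))
    show N < Nat.nth Nat.Prime (N + (Fintype.equivFin ι i : ℕ))
    omega
  have pinj : ∀ i j, p i = p j → i = j := by
    intro i j hij
    have h1 := (Nat.nth_strictMono Nat.infinite_setOfPred_prime).injective hij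
    exact (Fintype.equivFin ι).injective (Fin.ext (by omega))
  let M : ι → ℕ := fun i => ∏ l ∈ Finset.univ.erase i, p l
  have Mpos : ∀ i, 0 < M i := fun i => Finset.prod_pos fun l _ => (pprime l).pos
  have hdvd : ∀ i l, l ≠ i → p l ∣ M i := fun i l hl =>
    Finset.dvd_prod_of_mem _ (Finset.mem_erase.2 ⟨hl, Finset.mem_univ _⟩)
  have hnd : ∀ i x, ¬ p i ∣ M i * F i x := by
    intro i x hd
    rcases (pprime i).dvd_mul.1 hd with h1 | h1
    · obtain ⟨l, hl, hl2⟩ := ((pprime i).prime.dvd_finsetProd_iff _).1 h1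
      have h3 := (Nat.prime_dvd_prime_iff_eq (pprime i) (pprime l)).1 hl2
      exact (Finset.mem_erase.1 hl).1 (pinj _ _ h3).symm
    · have h2 := Nat.le_of_dvd (Fpos i x) h1
      have h3 := pbig i
      have h4 := hN i x
      omega
  have hdm : ∀ i l x, l ≠ i → p l ∣ M i * F i x := fun i l x hl => (hdvd i l hl).mul_right _
  have key : ∀ i j l x y w, M i * F i x + M j * F j y = M l * F l w → i = l := by
    intro i j l x y w hs
    by_contra hil
    by_cases hji : j = i
    · subst hji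
      apply hnd l w
      rw [← hs]
      exact dvd_add (hdm j l x (Ne.symm hil)) (hdm j l y (Ne.symm hil))
    · apply hnd i x
      have h1 : p i ∣ M i * F i x + M j * F j y := by
        rw [hs]; exact hdm l i w hil
      exact (Nat.dvd_add_left (hdm j i y (Ne.symm hji))).1 h1
  have keyinj : ∀ i j x y, M i * F i x = M j * F j y → i = j := by
    intro i j x y hs
    by_contra hij
    apply hnd i x
    rw [hs]
    exact hdm j i y hij
  -- the position of an element
  let I : (Σ i, V i) ⊕ Fin (Fintype.card ι) → ι := Sum.elim (fun q => q.1) (fun j => e j)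
  let Y : ∀ q : (Σ i, V i) ⊕ Fin (Fintype.card ι), V (I q) ⊕ Fin 1 := fun q =>
    match q with
    | Sum.inl q => Sum.inl q.2
    | Sum.inr _ => Sum.inr 0
  have hIY : ∀ q q' : (Σ i, V i) ⊕ Fin (Fintype.card ι), I q = I q' → HEq (Y q) (Y q') →
      q = q' := by
    rintro (⟨i, u⟩ | j) (⟨i', u'⟩ | j') h1 h2
    · change i = i' at h1
      subst h1
      have h3 : (Sum.inl u : V i ⊕ Fin 1) = Sum.inl u' := eq_of_heq h2
      rw [Sum.inl.inj h3]
    · change i = e j' at h1
      subst h1
      have h3 : (Sum.inl u : V (e j') ⊕ Fin 1) = Sum.inr 0 := eq_of_heq h2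
      exact absurd h3 (by simp)
    · change e j = i' at h1
      subst h1
      have h3 : (Sum.inr 0 : V (e j) ⊕ Fin 1) = Sum.inl u' := eq_of_heq h2
      exact absurd h3 (by simp)
    · change e j = e j' at h1
      rw [e.injective h1]
  have hsurj : ∀ i (y : V i ⊕ Fin 1), ∃ q : (Σ i, V i) ⊕ Fin (Fintype.card ι), I q = i ∧
      HEq (Y q) y := by
    rintro i (u | t)
    · exact ⟨Sum.inl ⟨i, u⟩, rfl, HEq.rfl⟩
    · refine ⟨Sum.inr (e.symm i), e.apply_symm_apply i, ?_⟩
      have h1 : t = 0 := Subsingleton.elim _ _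
      subst h1
      have h2 : ∀ i' i'' : ι, i' = i'' → HEq (Sum.inr 0 : V i' ⊕ Fin 1)
          (Sum.inr 0 : V i'' ⊕ Fin 1) := by
        rintro i' _ rfl; exact HEq.rfl
      exact h2 _ _ (e.apply_symm_apply i)
  have hFcongr : ∀ (i i' : ι) (y : V i ⊕ Fin 1) (y' : V i' ⊕ Fin 1), i = i' → HEq y y' →
      F i y = F i' y' := by
    rintro i _ y y' rfl h
    rw [eq_of_heq h]
  refine ⟨fun q => M (I q) * F (I q) (Y q), ?_, ?_, ?_⟩
  · intro q q' hqq
    change M (I q) * F (I q) (Y q) = M (I q') * F (I q') (Y q') at hqq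
    have h1 := keyinj _ _ _ _ hqq
    have h2 : F (I q) (Y q) = F (I q') (Y q') := by
      rw [congrArg M h1] at hqq
      exact Nat.eq_of_mul_eq_mul_left (Mpos _) hqq
    apply hIY q q' h1
    -- transport
    have h3 : ∀ (i i' : ι) (y : V i ⊕ Fin 1) (y' : V i' ⊕ Fin 1), i = i' →
        F i y = F i' y' → HEq y y' := by
      rintro i _ y y' rfl h
      exact heq_of_eq (Finj i h)
    exact h3 _ _ _ _ h1 h2
  · intro q
    exact Nat.mul_pos (Mpos _) (Fpos _ _)
  · intro q q' hne
    have claim : (∃ i u v, q = Sum.inl ⟨i, u⟩ ∧ q' = Sum.inl ⟨i, v⟩ ∧ (G i).Adj u v) ↔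
        ∃ i, ∃ y y' w : V i ⊕ Fin 1, I q = i ∧ I q' = i ∧ HEq (Y q) y ∧ HEq (Y q') y' ∧
          F i y + F i y' = F i w := by
      constructor
      · rintro ⟨i, u, v, rfl, rfl, huv⟩
        obtain ⟨w, hw⟩ := (hF i (Sum.inl u) (Sum.inl v) (by
          intro h; exact huv.ne (Sum.inl.inj h))).1 ⟨u, v, rfl, rfl, huv⟩
        exact ⟨i, Sum.inl u, Sum.inl v, w, rfl, rfl, HEq.rfl, HEq.rfl, hw⟩
      · rintro ⟨i, y, y', w, h1, h2, h3, h4, h5⟩
        have hyy : y ≠ y' := by
          intro h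
          apply hne
          apply hIY q q' (h1.trans h2.symm)
          exact h3.trans ((heq_of_eq h).trans h4.symm)
        obtain ⟨u, v, hu, hv, huv⟩ := (hF i y y' hyy).2 ⟨w, h5⟩
        refine ⟨i, u, v, ?_, ?_, huv⟩
        · apply hIY q (Sum.inl ⟨i, u⟩) h1
          exact h3.trans (heq_of_eq hu)
        · apply hIY q' (Sum.inl ⟨i, v⟩) h2
          exact h4.trans (heq_of_eq hv)
    rw [claim]
    constructor
    · rintro ⟨i, y, y', w, h1, h2, h3, h4, h5⟩
      obtain ⟨z, hz1, hz2⟩ := hsurj i w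
      refine ⟨z, ?_⟩
      show M (I q) * F (I q) (Y q) + M (I q') * F (I q') (Y q') = M (I z) * F (I z) (Y z)
      rw [hFcongr _ _ _ _ h1 h3, hFcongr _ _ _ _ h2 h4, hFcongr _ _ _ _ hz1 hz2, h1, h2, hz1,
        ← h5, mul_add]
    · rintro ⟨z, hz⟩
      change M (I q) * F (I q) (Y q) + M (I q') * F (I q') (Y q') = M (I z) * F (I z) (Y z) at hz
      have h1 := key _ _ _ _ _ _ hz
      have h2 := key _ _ _ _ _ _ ((add_comm _ _).trans hz)
      have htr : ∀ (i i' : ι) (y : V i ⊕ Fin 1), i = i' → ∃ y' : V i' ⊕ Fin 1, HEq y y' := by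
        rintro i _ y rfl
        exact ⟨y, HEq.rfl⟩
      obtain ⟨y, hy⟩ := htr _ _ (Y q) h1
      obtain ⟨y', hy'⟩ := htr _ _ (Y q') h2
      refine ⟨I z, y, y', Y z, h1, h2, hy, hy', ?_⟩
      rw [hFcongr _ _ _ _ h1 hy, hFcongr _ _ _ _ h2 hy', h1, h2, ← mul_add] at hz
      exact Nat.eq_of_mul_eq_mul_left (Mpos _) hz

end Pool.Agent.W629.SU
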