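import Pool.Agent.H43R3.SumG.Final

/-!
Labellings of a disjoint union of several of the graphs `GG τ` with few extra labels.
-/

set_option autoImplicit false

namespace Pool.Agent.W629.SU

open H43R3.SumG

/-- conclusion of rigidity -/
def Rig (τ : ℕ) (g : ℕ → ℚ) (L : Set ℚ) (c : ℚ) : Prop :=
  0 < c ∧ (∀ s, inS τ s → ∃ s', inS τ s' ∧ g s = c * s' ∧ (s % 2 = 0 → s' % 2 = 0)) ∧
      (∀ s', inS τ s' → ∃ s, inS τ s ∧ g s = c * s') ∧ c * (16*τ) ∈ L

theorem even_le_one {τ1 τ2 : ℕ} {gA gB : ℕ → ℚ} {L : Set ℚ} {cA : ℚ} (hA : Rig τ1 gA L cA)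
    (memB : ∀ s, inS τ2 s → gB s ∈ L)
    (injB : ∀ s s', inS τ2 s → inS τ2 s' → gB s = gB s' → s = s')
    (cross : ∀ s s', inS τ1 s → inS τ2 s' → gA s + gB s' ∉ L)
    {j : ℕ} {S : Finset ℕ} (hS : ∀ i ∈ S, 1 ≤ i ∧ i < 8*τ2)
    (hv : ∀ i ∈ S, ∃ s, s % 2 = 0 ∧ inS τ1 s ∧ gB (2*i) + gB (2*j) = gA s) : S.card ≤ 1 := by
  obtain ⟨hcA, hA1, hA2, -⟩ := hA
  rw [Finset.card_le_one]
  have key : ∀ i ∈ S, ∃ σ : ℕ, inS τ1 σ ∧ σ % 2 = 0 ∧ gB (2*i) + gB (2*j) = cA * σ := by
    intro i hi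
    obtain ⟨s, hs0, hs, h6⟩ := hv i hi
    obtain ⟨σ, hσ1, hσ2, hσ3⟩ := hA1 s hs
    exact ⟨σ, hσ1, hσ3 hs0, by rw [h6, hσ2]⟩
  have main : ∀ i ∈ S, ∀ i' ∈ S, ¬ (gB (2*i') < gB (2*i)) := by
    intro i hi i' hi' hlt
    obtain ⟨σ, h1, h2, h3⟩ := key i hi
    obtain ⟨σ', h1', h2', h3'⟩ := key i' hi'
    obtain ⟨a1, a2⟩ := hS i hi
    obtain ⟨b1, b2⟩ := hS i' hi'
    have h4 : cA * σ' < cA * σ := by rw [← h3, ← h3']; linarith
    have h5 : (σ':ℚ) < σ := lt_of_mul_lt_mul_left h4 hcA.le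
    have h6 : σ' < σ := by exact_mod_cast h5
    obtain ⟨s, hs, hs2⟩ := hA2 (σ - σ') (by unfold inS at h1 h1' ⊢; omega)
    apply cross s (2*i') hs (by unfold inS; omega)
    have h7 : gA s + gB (2*i') = gB (2*i) := by
      rw [hs2, Nat.cast_sub h6.le]; linarith
    rw [h7]
    exact memB _ (by unfold inS; omega)
  intro i hi i' hi'
  have h := injB (2*i) (2*i') (by have := hS i hi; unfold inS; omega)
    (by have := hS i' hi'; unfold inS; omega)
    (le_antisymm (not_lt.1 (main i hi i' hi')) (not_lt.1 (main i' hi' i hi)))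
  omega

/-- A labelling of the disjoint union of the graphs `GG (τ i)` with `r` extra labels. -/
structure Data {ι : Type} (τ : ι → ℕ) (r : ℕ) (g : ι → ℕ → ℚ) (z : Fin r → ℚ)
    (L : Set ℚ) : Prop where
  hL : ∀ w, w ∈ L ↔ (∃ i s, inS (τ i) s ∧ w = g i s) ∨ ∃ j, w = z j
  pos : ∀ i s, inS (τ i) s → 0 < g i s
  inj : ∀ i s s', inS (τ i) s → inS (τ i) s' → g i s = g i s' → s = s'
  dis : ∀ i l, i ≠ l → ∀ s s', inS (τ i) s → inS (τ l) s' → g i s ≠ g l s'
  adj : ∀ i s s', inS (τ i) s → inS (τ i) s' → s ≠ s' →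
    (g i s + g i s' ∈ L ↔ inT (τ i) (s + s'))
  cross : ∀ i l, i ≠ l → ∀ s s', inS (τ i) s → inS (τ l) s' → g i s + g l s' ∉ L
  dead : ∀ j i s, inS (τ i) s → z j + g i s ∉ L

theorem Data.mem {ι : Type} {τ : ι → ℕ} {r : ℕ} {g : ι → ℕ → ℚ} {z : Fin r → ℚ} {L : Set ℚ}
    (D : Data τ r g z L) (i : ι) (s : ℕ) (hs : inS (τ i) s) : g i s ∈ L :=
  (D.hL _).2 (Or.inl ⟨i, s, hs, rfl⟩)

theorem Data.side {ι : Type} {τ : ι → ℕ} {r : ℕ} {g : ι → ℕ → ℚ} {z : Fin r → ℚ} {L : Set ℚ}
    (D : Data τ r g z L) (i : ι) : Side (τ i) (g i) L :=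
  { pos := D.pos i
    inj := D.inj i
    mem := D.mem i
    adj := D.adj i
    dead := by
      intro w hw hn s hs
      rcases (D.hL w).1 hw with ⟨l, s', hs', h1⟩ | ⟨j, h1⟩
      · by_cases hl : l = i
        · subst hl
          exact absurd h1 (hn s' hs')
        · rw [h1]; exact D.cross l i hl s' s hs' hs
      · rw [h1]; exact D.dead j i s hs }

/-- the four odd labels -/
def odds (τ : ℕ) (g : ℕ → ℚ) : Finset ℚ := {g (2*τ-3), g (2*τ+3), g (2*τ+5), g (14*τ-3)}

theorem odds_card (τ : ℕ) (g : ℕ → ℚ) : (odds τ g).card ≤ 4 := Finset.card_le_four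

theorem mem_odds {τ : ℕ} (g : ℕ → ℚ) {s : ℕ} (hs : inS τ s) (h : ¬ (s % 2 = 0)) :
    g s ∈ odds τ g := by
  unfold odds
  simp only [Finset.mem_insert, Finset.mem_singleton]
  rcases hs with hs | hs | hs | hs | hs
  · exact absurd hs.1 h
  · left; rw [hs]
  · right; left; rw [hs]
  · right; right; left; rw [hs]
  · right; right; right; rw [hs]

theorem Data.rig {ι : Type} [Fintype ι] [LinearOrder ι] {τ : ι → ℕ} {r K : ℕ}
    {g : ι → ℕ → ℚ} {z : Fin r → ℚ} {L : Set ℚ} (D : Data τ r g z L) (i : ι)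
    (h10 : ∀ l, 10 ≤ τ l) (hbig : ∀ l, i < l → ∃ c, Rig (τ l) (g l) L c)
    (hE : 100*((4 + 6*K + ∑ l ∈ Finset.univ.filter (· < i), 16 * τ l) + 10) ≤ τ i)
    (hr : r ≤ K) (hK : Fintype.card ι ≤ K) : ∃ c, Rig (τ i) (g i) L c := by
  classical
  refine (D.side i).rigid hE ?_
  intro j hj hj' S hS
  set v : ℕ → ℚ := fun i' => g i (2*i') + g i (2*j) with hv
  set W : Finset ℚ := odds (τ i) (g i) ∪ Finset.univ.image z ∪
    (Finset.univ.filter (· < i)).biUnion (fun l => (Finset.range (16 * τ l)).image (g l)) ∪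
    (Finset.univ.filter (i < ·)).biUnion (fun l => odds (τ l) (g l)) with hW
  have hWc : W.card ≤ 4 + r + ∑ l ∈ Finset.univ.filter (· < i), 16 * τ l +
      (Finset.univ.filter (i < ·)).card * 4 := by
    have h1 : (Finset.univ.image z).card ≤ r := by
      have := Finset.card_image_le (s := (Finset.univ : Finset (Fin r))) (f := z)
      simpa using this
    have h2 : ((Finset.univ.filter (· < i)).biUnion
        (fun l => (Finset.range (16 * τ l)).image (g l))).card ≤
        ∑ l ∈ Finset.univ.filter (· < i), 16 * τ l := by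
      refine Finset.card_biUnion_le.trans (Finset.sum_le_sum fun l _ => ?_)
      have := Finset.card_image_le (s := Finset.range (16 * τ l)) (f := g l)
      rwa [Finset.card_range] at this
    have h3 : ((Finset.univ.filter (i < ·)).biUnion (fun l => odds (τ l) (g l))).card ≤
        (Finset.univ.filter (i < ·)).card * 4 :=
      Finset.card_biUnion_le_card_mul _ _ _ fun l _ => odds_card _ _
    have h4 := odds_card (τ i) (g i)
    have h5 := Finset.card_union_le (odds (τ i) (g i)) (Finset.univ.image z)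
    have h6 := Finset.card_union_le (odds (τ i) (g i) ∪ Finset.univ.image z)
      ((Finset.univ.filter (· < i)).biUnion (fun l => (Finset.range (16 * τ l)).image (g l)))
    have h7 := Finset.card_union_le (odds (τ i) (g i) ∪ Finset.univ.image z ∪
      (Finset.univ.filter (· < i)).biUnion (fun l => (Finset.range (16 * τ l)).image (g l)))
      ((Finset.univ.filter (i < ·)).biUnion (fun l => odds (τ l) (g l)))
    rw [hW]
    omega
  have hinj : ∀ i₁ ∈ S, ∀ i₂ ∈ S, v i₁ = v i₂ → i₁ = i₂ := by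
    intro i₁ h₁ i₂ h₂ heq
    obtain ⟨a1, a2, _⟩ := hS i₁ h₁
    obtain ⟨b1, b2, _⟩ := hS i₂ h₂
    have h3 : g i (2*i₁) = g i (2*i₂) := by
      simp only [hv] at heq
      linarith
    have := D.inj i _ _ (by unfold inS; omega) (by unfold inS; omega) h3
    omega
  have h1 : (S.filter (fun i' => v i' ∈ W)).card ≤ W.card := by
    refine Finset.card_le_card_of_injOn v ?_ ?_
    · intro i' hi'
      exact (Finset.mem_filter.1 (Finset.mem_coe.1 hi')).2
    · intro i₁ h₁ i₂ h₂ heq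
      exact hinj i₁ (Finset.mem_filter.1 (Finset.mem_coe.1 h₁)).1 i₂
        (Finset.mem_filter.1 (Finset.mem_coe.1 h₂)).1 heq
  have h2 : ∀ l ∈ Finset.univ.filter (i < ·),
      (S.filter (fun i' => ∃ s, s % 2 = 0 ∧ inS (τ l) s ∧ v i' = g l s)).card ≤ 1 := by
    intro l hl
    have hil : i < l := (Finset.mem_filter.1 hl).2
    obtain ⟨c, hc⟩ := hbig l hil
    refine even_le_one hc (D.mem i) (D.inj i) (D.cross l i hil.ne') (j := j) ?_ ?_
    · intro i' hi'
      obtain ⟨a1, a2, _⟩ := hS i' (Finset.mem_filter.1 hi').1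
      exact ⟨a1, a2⟩
    · intro i' hi'
      exact (Finset.mem_filter.1 hi').2
  have hsub : S ⊆ S.filter (fun i' => v i' ∈ W) ∪ (Finset.univ.filter (i < ·)).biUnion
      (fun l => S.filter (fun i' => ∃ s, s % 2 = 0 ∧ inS (τ l) s ∧ v i' = g l s)) := by
    intro i' hi'
    obtain ⟨a1, a2, a3, a4, a5⟩ := hS i' hi'
    rw [Finset.mem_union]
    rcases (D.hL _).1 a4 with ⟨l, s, hs, h6⟩ | ⟨j', h6⟩
    · rcases lt_trichotomy l i with hl | hl | hl
      · left
        refine Finset.mem_filter.2 ⟨hi', ?_⟩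
        rw [hW]
        refine Finset.mem_union_left _ (Finset.mem_union_right _ ?_)
        refine Finset.mem_biUnion.2 ⟨l, Finset.mem_filter.2 ⟨Finset.mem_univ _, hl⟩, ?_⟩
        refine Finset.mem_image.2 ⟨s, ?_, h6.symm⟩
        rw [Finset.mem_range]
        unfold inS at hs
        have := h10 l
        omega
      · subst hl
        left
        refine Finset.mem_filter.2 ⟨hi', ?_⟩
        rw [hW]
        refine Finset.mem_union_left _ (Finset.mem_union_left _ (Finset.mem_union_left _ ?_))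
        have h7 : v i' = g l s := h6
        rw [h7]
        refine mem_odds _ hs ?_
        intro hs0
        refine a5 (s/2) (by unfold inS at hs; omega) (by unfold inS at hs; omega) ?_
        rw [h6]; congr 1; omega
      · by_cases hs0 : s % 2 = 0
        · right
          refine Finset.mem_biUnion.2 ⟨l, Finset.mem_filter.2 ⟨Finset.mem_univ _, hl⟩, ?_⟩
          exact Finset.mem_filter.2 ⟨hi', s, hs0, hs, h6⟩
        · left
          refine Finset.mem_filter.2 ⟨hi', ?_⟩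
          rw [hW]
          refine Finset.mem_union_right _ ?_
          refine Finset.mem_biUnion.2 ⟨l, Finset.mem_filter.2 ⟨Finset.mem_univ _, hl⟩, ?_⟩
          have h7 : v i' = g l s := h6
          rw [h7]
          exact mem_odds _ hs hs0
    · left
      refine Finset.mem_filter.2 ⟨hi', ?_⟩
      rw [hW]
      refine Finset.mem_union_left _ (Finset.mem_union_left _ (Finset.mem_union_right _ ?_))
      exact Finset.mem_image.2 ⟨j', Finset.mem_univ _, h6.symm⟩
  have h3 := Finset.card_le_card hsub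
  have h4 := Finset.card_union_le (S.filter (fun i' => v i' ∈ W))
    ((Finset.univ.filter (i < ·)).biUnion
      (fun l => S.filter (fun i' => ∃ s, s % 2 = 0 ∧ inS (τ l) s ∧ v i' = g l s)))
  have h5 := Finset.card_biUnion_le_card_mul (Finset.univ.filter (i < ·))
    (fun l => S.filter (fun i' => ∃ s, s % 2 = 0 ∧ inS (τ l) s ∧ v i' = g l s)) 1 h2
  have h6 : (Finset.univ.filter (i < ·)).card ≤ Fintype.card ι := by
    rw [← Finset.card_univ]; exact Finset.card_filter_le _ _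
  omega

end Pool.Agent.W629.SU
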