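import Pool.Agent.W629.SU.Multi

/-!
The number of extra labels is at least the number of graphs.
-/

set_option autoImplicit false

namespace Pool.Agent.W629.SU

open H43R3.SumG

theorem Rig.sep {τ1 τ2 : ℕ} (hτ2 : 2000 ≤ τ2) (h15 : 15 ∣ τ2)
    (hτ1 : 100*((16*τ2+5)+10) ≤ τ1) (hdiv : ∀ n, 1 ≤ n → n ≤ 16*τ2 → n ∣ τ1)
    {gA gB : ℕ → ℚ} {L : Set ℚ} {cA cB : ℚ} (hA : Rig τ1 gA L cA) (hB : Rig τ2 gB L cB)
    (memA : ∀ s, inS τ1 s → gA s ∈ L) (memB : ∀ s, inS τ2 s → gB s ∈ L)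
    (hAB : ∀ s s', inS τ1 s → inS τ2 s' → gA s ≠ gB s')
    (cross : ∀ s s', inS τ1 s → inS τ2 s' → gA s + gB s' ∉ L) :
    (∀ n : ℕ, inT τ1 n → cB * (16*τ2) ≠ cA * n) ∧
      (∀ m : ℕ, inS τ2 m → cA * (16*τ1) ≠ cB * m) := by
  obtain ⟨hcA, hA1, hA2, hA3⟩ := hA
  obtain ⟨hcB, hB1, hB2, hB3⟩ := hB
  have key : ∀ z : ℚ, ((∃ m : ℕ, inS τ2 m ∧ cA * (16*τ1) = cB * m) ∨ cA * (16*τ1) = z) →
      ((∃ n : ℕ, inS τ1 n ∧ cB * (16*τ2) = cA * n) ∨ cB * (16*τ2) = z) → False := by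
    intro z
    refine arith hτ2 h15 hτ1 hdiv (cA := cA) (cB := cB) (z := z) (L := L) hcA hcB
      ?_ ?_ ?_ ?_
    · intro n m hn hm heq
      obtain ⟨s, hs, hs2⟩ := hA2 n hn
      obtain ⟨s', hs', hs2'⟩ := hB2 m hm
      exact hAB s s' hs hs' (by rw [hs2, hs2', heq])
    · intro n m hn hm
      obtain ⟨s, hs, hs2⟩ := hA2 n hn
      obtain ⟨s', hs', hs2'⟩ := hB2 m hm
      rw [← hs2, ← hs2']
      exact cross s s' hs hs'
    · intro n hn
      rcases hn with hn | hn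
      · obtain ⟨s, hs, hs2⟩ := hA2 n hn
        rw [← hs2]; exact memA s hs
      · rw [hn]; push_cast; exact hA3
    · intro n hn
      rcases hn with hn | hn
      · obtain ⟨s, hs, hs2⟩ := hB2 n hn
        rw [← hs2]; exact memB s hs
      · rw [hn]; push_cast; exact hB3
  refine ⟨?_, ?_⟩
  · intro n hn heq
    rcases hn with hn | hn
    · exact key (cA * (16*τ1)) (Or.inr rfl) (Or.inl ⟨n, hn, heq⟩)
    · refine key (cA * (16*τ1)) (Or.inr rfl) (Or.inr ?_)
      rw [heq, hn]; push_cast; ring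
  · intro m hm heq
    exact key (cB * (16*τ2)) (Or.inl ⟨m, hm, heq⟩) (Or.inr rfl)

/-- The separation hypotheses on the parameters. -/
structure Sep {ι : Type} [Fintype ι] [LinearOrder ι] (K : ℕ) (τ : ι → ℕ) : Prop where
  big : ∀ i, 2000 ≤ τ i
  d15 : ∀ i, 15 ∣ τ i
  div : ∀ i l, l < i → ∀ n, 1 ≤ n → n ≤ 16 * τ l → n ∣ τ i
  sum : ∀ i, 100*((4 + 6*K + ∑ l ∈ Finset.univ.filter (· < i), 16 * τ l) + 10) ≤ τ i

theorem Data.card_le {ι : Type} [Fintype ι] [LinearOrder ι] {τ : ι → ℕ} {r K : ℕ}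
    {g : ι → ℕ → ℚ} {z : Fin r → ℚ} {L : Set ℚ} (D : Data τ r g z L) (hτ : Sep K τ)
    (hK : Fintype.card ι ≤ K) : Fintype.card ι ≤ r := by
  classical
  by_contra hcon
  have hr : r ≤ K := by omega
  have h10 : ∀ l, 10 ≤ τ l := fun l => by have := hτ.big l; omega
  have hall : ∀ i, ∃ c, Rig (τ i) (g i) L c := by
    by_contra hne
    push Not at hne
    obtain ⟨i₀, hi₀⟩ := hne
    set F : Finset ι := Finset.univ.filter (fun i => ¬ ∃ c, Rig (τ i) (g i) L c) with hFdef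
    have hF : F.Nonempty := ⟨i₀, Finset.mem_filter.2 ⟨Finset.mem_univ _, by
      rintro ⟨c, hc⟩; exact hi₀ c hc⟩⟩
    have hmem : F.max' hF ∈ F := F.max'_mem hF
    apply (Finset.mem_filter.1 hmem).2
    refine D.rig (F.max' hF) h10 ?_ (hτ.sum _) hr hK
    intro l hl
    by_contra h
    have h2 := F.le_max' l (Finset.mem_filter.2 ⟨Finset.mem_univ _, h⟩)
    exact absurd hl (not_lt.2 h2)
  choose c hc using hall
  have sep : ∀ i l, l < i → (∀ n : ℕ, inT (τ i) n → c l * (16*τ l) ≠ c i * n) ∧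
      (∀ m : ℕ, inS (τ l) m → c i * (16*τ i) ≠ c l * m) := by
    intro i l hl
    refine Rig.sep (hτ.big l) (hτ.d15 l) ?_ (hτ.div i l hl) (hc i) (hc l) (D.mem i) (D.mem l)
      (D.dis i l hl.ne') (D.cross i l hl.ne')
    have h1 := hτ.sum i
    have h2 : 16 * τ l ≤ ∑ l ∈ Finset.univ.filter (· < i), 16 * τ l :=
      Finset.single_le_sum (f := fun l => 16 * τ l) (fun _ _ => Nat.zero_le _)
        (Finset.mem_filter.2 ⟨Finset.mem_univ _, hl⟩)
    have h3 : 1 ≤ K := by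
      have : 0 < Fintype.card ι := Fintype.card_pos_iff.2 ⟨i⟩
      omega
    omega
  have hT : ∀ i, ∃ j, c i * (16*τ i) = z j := by
    intro i
    rcases (D.hL _).1 (hc i).2.2.2 with ⟨l, s, hs, h6⟩ | h
    · exfalso
      obtain ⟨σ, h1, h2, _⟩ := (hc l).2.1 s hs
      rw [h2] at h6
      rcases lt_trichotomy l i with h | h | h
      · exact (sep i l h).2 σ h1 h6
      · subst h
        have h7 := mul_left_cancel₀ (hc l).1.ne' h6
        have h8 : 16*τ l = σ := by exact_mod_cast h7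
        have := hτ.big l
        unfold inS at h1
        omega
      · exact (sep l i h).1 σ (Or.inl h1) h6
    · exact h
  choose J hJ using hT
  have hinj : Function.Injective J := by
    intro i l heq
    have h1 : c i * (16*τ i) = c l * (16*τ l) := by rw [hJ, hJ, heq]
    rcases lt_trichotomy i l with h | h | h
    · exfalso
      apply (sep l i h).1 (16*τ l) (Or.inr rfl)
      rw [h1]; push_cast; ring
    · exact h
    · exfalso
      apply (sep i l h).1 (16*τ i) (Or.inr rfl)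
      rw [← h1]; push_cast; ring
  have := Fintype.card_le_of_injective J hinj
  rw [Fintype.card_fin] at this
  exact hcon this

end Pool.Agent.W629.SU
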