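import Pool.Agent.W629.SU.Multi2

/-!
A sequence of parameters with the separation properties.
-/

set_option autoImplicit false

namespace Pool.Agent.W629.SU

/-- the parameters -/
def tt (K : ℕ) : ℕ → ℕ
  | 0 => (600 * K + 3000).factorial
  | n + 1 => (10000 * tt K n).factorial

theorem tt_big (K n : ℕ) : 600 * K + 3000 ≤ tt K n := by
  induction n with
  | zero => exact Nat.self_le_factorial _
  | succ n ih =>
    have h : 10000 * tt K n ≤ tt K (n+1) := Nat.self_le_factorial _
    omega

theorem tt_succ (K n : ℕ) : 10000 * tt K n ≤ tt K (n+1) := Nat.self_le_factorial _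

theorem tt_dvd_succ (K n d : ℕ) (h1 : 1 ≤ d) (h2 : d ≤ 10000 * tt K n) : d ∣ tt K (n+1) :=
  Nat.dvd_factorial h1 h2

theorem tt_strictMono (K : ℕ) : StrictMono (tt K) := by
  refine strictMono_nat_of_lt_succ fun n => ?_
  have := tt_succ K n
  have := tt_big K n
  omega

theorem tt_15 (K n : ℕ) : 15 ∣ tt K n := by
  cases n with
  | zero => exact Nat.dvd_factorial (by omega) (by omega)
  | succ n =>
    have := tt_big K n
    exact tt_dvd_succ K n 15 (by omega) (by omega)

theorem tt_dvd (K m n : ℕ) (h : m < n) (d : ℕ) (h1 : 1 ≤ d) (h2 : d ≤ 16 * tt K m) :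
    d ∣ tt K n := by
  obtain ⟨n, rfl⟩ : ∃ n', n = n' + 1 := ⟨n - 1, by omega⟩
  have h3 : tt K m ≤ tt K n := (tt_strictMono K).monotone (by omega)
  exact tt_dvd_succ K n d h1 (by omega)

theorem tt_sum (K n : ℕ) :
    100*((4 + 6*K + ∑ l ∈ Finset.range n, 16 * tt K l) + 10) ≤ tt K n := by
  have key : ∀ n, ∑ l ∈ Finset.range (n+1), 16 * tt K l ≤ 32 * tt K n := by
    intro n
    induction n with
    | zero => simp only [zero_add, Finset.sum_range_one]; omega
    | succ n ih =>
      rw [Finset.sum_range_succ]
      have := tt_succ K n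
      omega
  cases n with
  | zero =>
    have h := tt_big K 0
    simp only [Finset.range_zero, Finset.sum_empty]
    omega
  | succ n =>
    have h1 := key n
    have h2 := tt_succ K n
    have h3 := tt_big K n
    omega

/-- injective, strictly monotone choices of indices give separated parameters -/
theorem tt_sep {ι : Type} [Fintype ι] [LinearOrder ι] (K : ℕ) (f : ι → ℕ) (hf : StrictMono f) :
    Sep K (fun i => tt K (f i)) := by
  refine ⟨fun i => ?_, fun i => tt_15 _ _, fun i l hl d h1 h2 => tt_dvd K (f l) (f i) (hf hl) d h1 h2,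
    fun i => ?_⟩
  · have := tt_big K (f i)
    show 2000 ≤ tt K (f i)
    omega
  · have h1 := tt_sum K (f i)
    have h2 : ∑ l ∈ Finset.univ.filter (· < i), 16 * tt K (f l) ≤
        ∑ l ∈ Finset.range (f i), 16 * tt K l := by
      rw [← Finset.sum_image (s := Finset.univ.filter (· < i)) (g := f)
        (f := fun l => 16 * tt K l) (fun a _ b _ h => hf.injective h)]
      refine Finset.sum_le_sum_of_subset ?_
      intro x hx
      obtain ⟨l, hl, rfl⟩ := Finset.mem_image.1 hx
      exact Finset.mem_range.2 (hf (Finset.mem_filter.1 hl).2)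
    show 100*((4 + 6*K + ∑ l ∈ Finset.univ.filter (· < i), 16 * tt K (f l)) + 10) ≤ tt K (f i)
    omega

end Pool.Agent.W629.SU
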